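import Pool.Agent.H87.EBK.Stmts

/-!
Board ebk (MP_93721d_nt), row VNE: the 2-adic valuations of the legs differ by at least two.
-/

set_option autoImplicit false

namespace Pool.EBK

private lemma vne_int (p q T : ℤ) (hq : q % 2 = 1) (h : p ^ 2 + q ^ 2 = T * T) : (4 : ℤ) ∣ p := by
  have h8 : ∀ x : ℤ, x % 2 = 1 → x * x % 8 = 1 := by
    intro x hx
    have : x % 8 = 1 ∨ x % 8 = 3 ∨ x % 8 = 5 ∨ x % 8 = 7 := by omega
    rcases this with h | h | h | h <;> simp [Int.mul_emod, h]
  have h4 : ∀ x : ℤ, x % 2 = 0 → x * x % 4 = 0 := by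
    intro x hx
    have : x % 4 = 0 ∨ x % 4 = 2 := by omega
    rcases this with h | h <;> simp [Int.mul_emod, h]
  rw [sq, sq] at h
  have hqq := h8 q hq
  rcases Int.emod_two_eq_zero_or_one p with hp | hp
  · have hpp := h4 p hp
    have hT : T % 2 = 1 := by
      rcases Int.emod_two_eq_zero_or_one T with hT | hT
      · have := h4 T hT
        omega
      · exact hT
    have hTT := h8 T hT
    obtain ⟨m, hm⟩ : ∃ m, p = 2 * m := ⟨p / 2, by omega⟩
    subst hm
    rcases Int.emod_two_eq_zero_or_one m with h' | h'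
    · obtain ⟨l, hl⟩ : ∃ l, m = 2 * l := ⟨m / 2, by omega⟩
      exact ⟨l, by rw [hl]; ring⟩
    · have hmm := h8 m h'
      have e : 2 * m * (2 * m) = 4 * (m * m) := by ring
      rw [e] at h
      omega
  · have hpp := h8 p hp
    rcases Int.emod_two_eq_zero_or_one T with hT | hT
    · have := h4 T hT
      omega
    · have := h8 T hT
      omega

private lemma vne_aux (a b : ℚ) (h : Pair a b) (hle : v a ≤ v b) : v a + 2 ≤ v b := by
  have : Fact (Nat.Prime 2) := ⟨Nat.prime_two⟩
  obtain ⟨ha, hb, hs⟩ := h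
  set r : ℚ := b / a with hr
  have hr0 : r ≠ 0 := div_ne_zero hb.ne' ha.ne'
  have hvr : v r = v b - v a := padicValRat.div hb.ne' ha.ne'
  have hvr' : v r = (padicValInt 2 r.num : ℤ) - (padicValNat 2 r.den : ℤ) := rfl
  have hnum0 : r.num ≠ 0 := Rat.num_ne_zero.2 hr0
  have hden : r.den % 2 = 1 := by
    by_contra hne
    have h2 : 2 ∣ r.den := by omega
    have h3 : ¬ (2 : ℤ) ∣ r.num := by
      intro h4
      have h5 : 2 ∣ r.num.natAbs := by
        have := Int.natAbs_dvd_natAbs.2 h4
        simpa using this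
      have h6 := Nat.dvd_gcd h5 h2
      rw [r.reduced.gcd_eq_one] at h6
      omega
    have h4 : padicValInt 2 r.num = 0 := by
      apply padicValNat.eq_zero_of_not_dvd
      intro h5
      apply h3
      exact Int.natCast_dvd.2 h5
    have h5 : 1 ≤ padicValNat 2 r.den := one_le_padicValNat_of_dvd r.den_nz h2
    rw [h4] at hvr'
    have h6 : (1 : ℤ) ≤ (padicValNat 2 r.den : ℤ) := by exact_mod_cast h5
    push_cast at hvr'
    linarith
  have hden0 : padicValNat 2 r.den = 0 := by
    apply padicValNat.eq_zero_of_not_dvd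
    intro h
    omega
  have hsq : IsSquare (((r.num ^ 2 + (r.den : ℤ) ^ 2 : ℤ)) : ℚ) := by
    obtain ⟨s, hs⟩ := hs
    refine ⟨s / a * r.den, ?_⟩
    have hd0 : (r.den : ℚ) ≠ 0 := by exact_mod_cast r.den_nz
    have h1 : (r.num : ℚ) = b / a * r.den := by
      have h2 := Rat.num_div_den r
      rw [← hr]
      field_simp at h2
      linarith
    have ha0 := ha.ne'
    push_cast
    rw [h1]
    field_simp
    nlinarith
  rw [Rat.isSquare_intCast_iff] at hsq
  obtain ⟨T, hT⟩ := hsq
  have h4 := vne_int r.num r.den T (by omega) hT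
  have h5 : 2 ≤ padicValInt 2 r.num := by
    have h6 : ((2 : ℕ) : ℤ) ^ 2 ∣ r.num := by
      have : (((2 : ℕ) : ℤ) ^ 2) = 4 := by norm_num
      rw [this]
      exact h4
    rcases (padicValInt_dvd_iff 2 r.num).1 h6 with h7 | h7
    · exact absurd h7 hnum0
    · exact h7
  have h6 : (2 : ℤ) ≤ (padicValInt 2 r.num : ℤ) := by exact_mod_cast h5
  rw [hden0] at hvr'
  push_cast at hvr'
  linarith

theorem vne : VNE := by
  intro a b h
  rcases le_total (v a) (v b) with hle | hle
  · exact Or.inl (vne_aux a b h hle)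
  · right
    refine vne_aux b a ⟨h.2.1, h.1, ?_⟩ hle
    rw [add_comm]
    exact h.2.2

end Pool.EBK
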